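import Pool.Agent.Helper57.KD3.Geom

/-! KD project Part III: counting lemmas. -/

namespace KD.III

variable {d : ℕ}

namespace Cnt

/-- products of integer intervals as finite sets of cells -/
noncomputable def bx (a a' : ℤ) (b b' : ℤ) (c c' : ℤ) : Finset (Cell d) :=
  Finset.Ico a a' ×ˢ ((Fintype.piFinset fun _ => Finset.Ico b b') ×ˢ
    (Fintype.piFinset fun _ => Finset.Ico c c'))

lemma mem_bx {a a' b b' c c' : ℤ} {x : Cell d} : x ∈ bx a a' b b' c c' ↔
    (a ≤ x.1 ∧ x.1 < a') ∧ (∀ i, b ≤ x.2.1 i ∧ x.2.1 i < b') ∧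
      ∀ i, c ≤ x.2.2 i ∧ x.2.2 i < c' := by
  unfold bx
  simp only [Finset.mem_product, Finset.mem_Ico, Fintype.mem_piFinset]

lemma card_bx {a a' b b' c c' : ℤ} : (bx a a' b b' c c' : Finset (Cell d)).card =
    (a' - a).toNat * ((b' - b).toNat ^ d * (c' - c).toNat ^ d) := by
  unfold bx
  rw [Finset.card_product, Finset.card_product, Int.card_Ico]
  simp

/-- the fibre of `par` over `g`, parametrised -/
def fb (e : ℤ) (g : Cell d) (p : Cell d) : Cell d :=
  (e * g.1 + p.1, fun i => 2 * p.1 * g.2.2 i + 2 * e * g.2.1 i + p.2.1 i,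
    fun i => 2 * g.2.2 i + p.2.2 i)

lemma fb_inj (e : ℤ) (g : Cell d) : Function.Injective (fb e g) := by
  rintro ⟨a, b, c⟩ ⟨a', b', c'⟩ h
  simp only [fb, Prod.mk.injEq] at h
  obtain ⟨h1, h2, h3⟩ := h
  have ha : a = a' := by linarith
  subst ha
  have hb : b = b' := by
    funext i
    have := congrFun h2 i
    beta_reduce at this
    linarith
  have hc : c = c' := by
    funext i
    have := congrFun h3 i
    beta_reduce at this
    linarith
  rw [hb, hc]

lemma par_eq_iff (s : ℝ) (k : ℕ) (g h : Cell d) : par s k h = g ↔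
    h ∈ (bx 0 (ek s k) 0 (2 * ek s k) 0 2).image (fb (ek s k) g) := by
  classical
  have he := ek_pos s k
  generalize hE : ek s k = e at he ⊢
  constructor
  · intro hp
    rw [Finset.mem_image]
    refine ⟨(h.1 - e * g.1, fun i => h.2.1 i - 2 * (h.1 - e * g.1) * g.2.2 i - 2 * e * g.2.1 i,
      fun i => h.2.2 i - 2 * g.2.2 i), ?_, ?_⟩
    · unfold par at hp
      rw [hE] at hp
      have h1 : h.1 / e = g.1 := congrArg Prod.fst hp
      have h3 : ∀ i, h.2.2 i / 2 = g.2.2 i := fun i => congrFun (congrArg (fun q => q.2.2) hp) i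
      have h2 : ∀ i, (h.2.1 i - 2 * (h.1 % e) * (h.2.2 i / 2)) / (2 * e) = g.2.1 i := fun i =>
        congrFun (congrArg (fun q => q.2.1) hp) i
      have hm : h.1 % e = h.1 - e * g.1 := by
        rw [← h1]; have := Int.emod_add_mul_ediv h.1 e; linarith
      rw [mem_bx]
      refine ⟨⟨?_, ?_⟩, ?_, ?_⟩
      · rw [← hm]; exact Int.emod_nonneg _ he.ne'
      · rw [← hm]; exact Int.emod_lt_of_pos _ he
      · intro i
        have h2i := h2 i
        rw [h3 i, hm] at h2i
        have h2e : (0 : ℤ) < 2 * e := by linarith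
        have q1 := Int.emod_add_mul_ediv (h.2.1 i - 2 * (h.1 - e * g.1) * g.2.2 i) (2 * e)
        have q2 := Int.emod_nonneg (h.2.1 i - 2 * (h.1 - e * g.1) * g.2.2 i) h2e.ne'
        have q3 := Int.emod_lt_of_pos (h.2.1 i - 2 * (h.1 - e * g.1) * g.2.2 i) h2e
        rw [h2i] at q1
        constructor
        · change 0 ≤ h.2.1 i - 2 * (h.1 - e * g.1) * g.2.2 i - 2 * e * g.2.1 i
          linarith
        · change h.2.1 i - 2 * (h.1 - e * g.1) * g.2.2 i - 2 * e * g.2.1 i < 2 * e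
          linarith
      · intro i
        have h3i := h3 i
        change 0 ≤ h.2.2 i - 2 * g.2.2 i ∧ h.2.2 i - 2 * g.2.2 i < 2
        omega
    · refine Prod.ext ?_ (Prod.ext ?_ ?_)
      · change e * g.1 + (h.1 - e * g.1) = h.1
        ring
      · funext i
        change 2 * (h.1 - e * g.1) * g.2.2 i + 2 * e * g.2.1 i +
          (h.2.1 i - 2 * (h.1 - e * g.1) * g.2.2 i - 2 * e * g.2.1 i) = h.2.1 i
        ring
      · funext i
        change 2 * g.2.2 i + (h.2.2 i - 2 * g.2.2 i) = h.2.2 i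
        ring
  · intro hh
    rw [Finset.mem_image] at hh
    obtain ⟨p, hp, rfl⟩ := hh
    rw [mem_bx] at hp
    obtain ⟨⟨a1, a2⟩, b, c⟩ := hp
    unfold par
    rw [hE]
    have hdiv : (e * g.1 + p.1) / e = g.1 := by
      rw [Int.add_comm, Int.add_mul_ediv_left _ _ he.ne', Int.ediv_eq_zero_of_lt a1 a2, zero_add]
    have hmod : (e * g.1 + p.1) % e = p.1 := by
      rw [Int.add_comm, Int.add_mul_emod_self_left, Int.emod_eq_of_lt a1 a2]
    have hl : ∀ i, (2 * g.2.2 i + p.2.2 i) / 2 = g.2.2 i := by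
      intro i
      have := c i
      omega
    have h2e : (0 : ℤ) < 2 * e := by linarith
    refine Prod.ext ?_ (Prod.ext ?_ ?_)
    · exact hdiv
    · funext i
      change (2 * p.1 * g.2.2 i + 2 * e * g.2.1 i + p.2.1 i -
        2 * ((e * g.1 + p.1) % e) * ((2 * g.2.2 i + p.2.2 i) / 2)) / (2 * e) = g.2.1 i
      rw [hl i, hmod]
      have h1 : 2 * p.1 * g.2.2 i + 2 * e * g.2.1 i + p.2.1 i - 2 * p.1 * g.2.2 i =
          p.2.1 i + 2 * e * g.2.1 i := by ring
      rw [h1, Int.add_mul_ediv_left _ _ h2e.ne', Int.ediv_eq_zero_of_lt (b i).1 (b i).2, zero_add]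
    · funext i
      exact hl i

lemma tile_succ (s : ℝ) (k : ℕ) (g : Cell d) : Tile s (k + 1) g =
    ⋃ h ∈ (bx 0 (ek s k) 0 (2 * ek s k) 0 2).image (fb (ek s k) g), Tile s k h := by
  ext c
  rw [mem_Tile, TT_succ, par_eq_iff, Set.mem_iUnion₂]
  constructor
  · intro h
    exact ⟨_, h, rfl⟩
  · rintro ⟨h, hh, hc⟩
    rw [mem_Tile] at hc
    rw [hc]
    exact hh

lemma both (s : ℝ) (k : ℕ) : ∀ g : Cell d, (Tile s k g).Finite ∧
    (Tile s k g).ncard = vol d s k := by
  classical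
  induction k with
  | zero =>
    intro g
    have h : Tile s 0 g = {g} := by
      ext c; rw [mem_Tile, TT_zero]; rfl
    rw [h]
    refine ⟨Set.finite_singleton _, ?_⟩
    rw [Set.ncard_singleton]
    have : ((vol d s 0 : ℕ) : ℤ) = 1 := by
      rw [vol_cast]
      simp [tau_zero, XX, rho]
    exact_mod_cast this.symm
  | succ k ih =>
    intro g
    have hfin : (Tile s (k + 1) g).Finite := by
      rw [tile_succ]
      exact Set.Finite.biUnion (Finset.finite_toSet _) (fun h _ => (ih h).1)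
    refine ⟨hfin, ?_⟩
    rw [Set.ncard_eq_toFinset_card _ hfin]
    have hset : hfin.toFinset = ((bx 0 (ek s k) 0 (2 * ek s k) 0 2).image
        (fb (ek s k) g)).biUnion (fun h => (ih h).1.toFinset) := by
      ext c
      rw [Set.Finite.mem_toFinset, tile_succ, Set.mem_iUnion₂, Finset.mem_biUnion]
      simp only [Set.Finite.mem_toFinset, exists_prop]
    rw [hset, Finset.card_biUnion]
    · have hc : ∀ h ∈ (bx 0 (ek s k) 0 (2 * ek s k) 0 2).image (fb (ek s k) g),
          ((ih h).1.toFinset).card = vol d s k := by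
        intro h _
        rw [← Set.ncard_eq_toFinset_card _ (ih h).1]
        exact (ih h).2
      rw [Finset.sum_congr rfl hc, Finset.sum_const, Finset.card_image_of_injective _ (fb_inj _ _),
        card_bx, smul_eq_mul]
      have he := ek_pos s k
      have hcast : (((ek s k - 0).toNat * ((2 * ek s k - 0).toNat ^ d * (2 - 0 : ℤ).toNat ^ d) *
          vol d s k : ℕ) : ℤ) = ((vol d s (k + 1) : ℕ) : ℤ) := by
        rw [Nat.cast_mul, Nat.cast_mul, Nat.cast_mul, Nat.cast_pow, Nat.cast_pow]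
        rw [vol_cast, vol_cast, tau_succ, XX_succ, rho_succ, sub_zero, sub_zero, sub_zero]
        rw [Int.toNat_of_nonneg he.le, Int.toNat_of_nonneg (show 0 ≤ 2 * ek s k by linarith),
          Int.toNat_of_nonneg (show (0 : ℤ) ≤ 2 by norm_num)]
        rw [mul_pow (2 * ek s k), mul_pow 2 (rho k)]
        ring
      exact_mod_cast hcast
    · intro h _ h' _ hne
      rw [Function.onFun, Finset.disjoint_left]
      intro c hc hc'
      rw [Set.Finite.mem_toFinset, mem_Tile] at hc hc'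
      exact hne (hc.symm.trans hc')

lemma box_eq (s : ℝ) (K : ℕ) : (Box s K : Set (Cell d)) =
    ↑(bx 0 (tau s K) 0 (XX s K) 0 (rho K) : Finset (Cell d)) := by
  ext c
  rw [Finset.mem_coe, mem_bx]
  rfl

lemma bigBox_eq (s : ℝ) (K : ℕ) : (BigBox s K : Set (Cell d)) =
    ↑(bx 0 (2 * tau s K) (-XX s K) (2 * XX s K) 0 (rho K) : Finset (Cell d)) := by
  ext c
  rw [Finset.mem_coe, mem_bx]
  rfl

lemma bb_eq (s : ℝ) (K : ℕ) (A W : ℤ) : (BB s K A W : Set (Cell d)) =
    ↑(bx 0 (tau s K + A) (-W) (XX s K + W) 0 (rho K) : Finset (Cell d)) := by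
  ext c
  rw [Finset.mem_coe, mem_bx]
  rfl

/-- the numerical inequality behind `bb_ncard` -/
lemma num (d : ℕ) (t X r A W : ℝ) (ht : 0 < t) (hX : 0 < X) (hr : 0 < r) (hA : 0 ≤ A)
    (hW : 0 ≤ W) (hA1 : 4 * (d + 1) * A ≤ t) (hW1 : 4 * (d + 1) * W ≤ X) :
    (t + A) * ((X + 2 * W) ^ d * r ^ d) ≤ 2 * (t * X ^ d * r ^ d) := by
  have hn : (0 : ℝ) < d + 1 := by positivity
  set q : ℝ := 1 + 1 / (2 * (d + 1)) with hq
  have hq1 : 1 ≤ q := by
    rw [hq]; have : (0 : ℝ) ≤ 1 / (2 * (d + 1)) := by positivity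
    linarith
  have h1 : t + A ≤ t * q := by
    have : A ≤ t * (1 / (2 * (d + 1))) := by
      rw [mul_one_div, le_div_iff₀ (by positivity)]
      nlinarith [mul_nonneg hA hn.le]
    rw [hq]; linarith
  have h2 : X + 2 * W ≤ X * q := by
    have : 2 * W ≤ X * (1 / (2 * (d + 1))) := by
      rw [mul_one_div, le_div_iff₀ (by positivity)]
      nlinarith [mul_nonneg hW hn.le]
    rw [hq]; linarith
  have h3 : (X + 2 * W) ^ d ≤ (X * q) ^ d := pow_le_pow_left₀ (by positivity) h2 d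
  have h4 : q ^ (d + 1) ≤ 2 := by
    have hq0 : 0 < q := by linarith
    have hb : 1 + ((d + 1 : ℕ) : ℝ) * (1 / q - 1) ≤ (1 + (1 / q - 1)) ^ (d + 1) := by
      apply one_add_mul_le_pow
      have : 0 < 1 / q := by positivity
      linarith
    have e1 : 1 + (1 / q - 1) = 1 / q := by ring
    rw [e1, div_pow, one_pow] at hb
    have e2 : 1 / q - 1 = -(1 / (2 * (d + 1) + 1)) := by
      rw [hq]; field_simp; ring
    rw [e2] at hb
    have hb2 : (1 : ℝ) / 2 ≤ 1 + ((d + 1 : ℕ) : ℝ) * -(1 / (2 * (d + 1) + 1)) := by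
      push_cast
      have : ((d : ℝ) + 1) * (1 / (2 * (d + 1) + 1)) ≤ 1 / 2 := by
        rw [mul_one_div, div_le_div_iff₀ (by positivity) (by norm_num)]
        linarith
      linarith
    have h5 : (1 : ℝ) / 2 ≤ 1 / q ^ (d + 1) := hb2.trans hb
    rw [div_le_div_iff₀ (by norm_num) (by positivity)] at h5
    linarith
  calc (t + A) * ((X + 2 * W) ^ d * r ^ d)
      ≤ (t * q) * ((X * q) ^ d * r ^ d) := by
        apply mul_le_mul h1 _ (by positivity) (by positivity)
        exact mul_le_mul_of_nonneg_right h3 (by positivity)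
    _ = q ^ (d + 1) * (t * X ^ d * r ^ d) := by rw [mul_pow, pow_succ]; ring
    _ ≤ 2 * (t * X ^ d * r ^ d) := mul_le_mul_of_nonneg_right h4 (by positivity)

end Cnt

/-- (T1) -/
theorem tile_finite (s : ℝ) (k : ℕ) (g : Cell d) : (Tile s k g).Finite := (Cnt.both s k g).1

theorem tile_ncard (s : ℝ) (k : ℕ) (g : Cell d) : (Tile s k g).ncard = vol d s k :=
  (Cnt.both s k g).2

theorem box_finite (s : ℝ) (K : ℕ) : (Box s K : Set (Cell d)).Finite := by
  rw [Cnt.box_eq]; exact Finset.finite_toSet _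

theorem box_ncard (s : ℝ) (K : ℕ) : (Box s K : Set (Cell d)).ncard = vol d s K := by
  rw [Cnt.box_eq, Set.ncard_coe_finset, Cnt.card_bx]
  have h : (((tau s K - 0).toNat * ((XX s K - 0).toNat ^ d * (rho K - 0).toNat ^ d) : ℕ) : ℤ) =
      ((vol d s K : ℕ) : ℤ) := by
    rw [vol_cast]
    rw [Nat.cast_mul, Nat.cast_mul, Nat.cast_pow, Nat.cast_pow]
    rw [sub_zero, sub_zero, sub_zero, Int.toNat_of_nonneg (tau_pos s K).le,
      Int.toNat_of_nonneg (XX_pos s K).le, Int.toNat_of_nonneg (rho_pos K).le]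
    ring
  exact_mod_cast h

theorem bigBox_finite (s : ℝ) (K : ℕ) : (BigBox s K : Set (Cell d)).Finite := by
  rw [Cnt.bigBox_eq]; exact Finset.finite_toSet _

/-- growth of the time scales -/
theorem tau_growth (s : ℝ) (hs : 0 < s) (G : ℕ) :
    ∃ L : ℕ, 1 ≤ L ∧ ∀ k, (G : ℤ) * tau s k ≤ tau s (k + L) := by
  obtain ⟨L, hL⟩ := exists_nat_ge ((G : ℝ) / (2 * s) + 1)
  have h2s : 0 < 2 * s := by linarith
  have hG0 : 0 ≤ (G : ℝ) / (2 * s) := by positivity
  have hL1 : 1 ≤ L := by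
    have : (1 : ℝ) ≤ L := by linarith
    exact_mod_cast this
  refine ⟨L, hL1, fun k => ?_⟩
  rw [tau_eq hs.le, tau_eq hs.le]
  have hLG : (G : ℝ) ≤ 2 * s * L := by
    have : (G : ℝ) / (2 * s) ≤ L := by linarith
    rw [div_le_iff₀ h2s] at this
    linarith
  have hfl : ⌊2 * s * (k : ℝ)⌋₊ + G ≤ ⌊2 * s * ((k + L : ℕ) : ℝ)⌋₊ := by
    apply Nat.le_floor
    push_cast
    have := Nat.floor_le (show 0 ≤ 2 * s * (k : ℝ) by positivity)
    linarith
  have hG : (G : ℤ) ≤ 2 ^ G := by exact_mod_cast Nat.lt_two_pow_self.le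
  calc (G : ℤ) * 2 ^ ⌊2 * s * (k : ℝ)⌋₊ ≤ 2 ^ G * 2 ^ ⌊2 * s * (k : ℝ)⌋₊ :=
        mul_le_mul_of_nonneg_right hG (by positivity)
    _ = 2 ^ (⌊2 * s * (k : ℝ)⌋₊ + G) := by rw [pow_add]; ring
    _ ≤ 2 ^ ⌊2 * s * ((k + L : ℕ) : ℝ)⌋₊ := pow_le_pow_right₀ (by norm_num) hfl

/-- the container has at most twice the size of the box if the margins are small -/
theorem bb_ncard (s : ℝ) (K : ℕ) (A W : ℤ) (hA : 0 ≤ A) (hW : 0 ≤ W)
    (hA1 : 4 * ((d : ℤ) + 1) * A ≤ tau s K) (hW1 : 4 * ((d : ℤ) + 1) * W ≤ XX s K) :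
    (BB s K A W : Set (Cell d)).Finite ∧
    (BB s K A W : Set (Cell d)).ncard ≤ 2 * vol d s K := by
  rw [Cnt.bb_eq]
  refine ⟨Finset.finite_toSet _, ?_⟩
  rw [Set.ncard_coe_finset, Cnt.card_bx]
  have h1 := tau_pos s K
  have h2 := XX_pos s K
  have h3 := rho_pos K
  have h : (((tau s K + A - 0).toNat * ((XX s K + W - -W).toNat ^ d * (rho K - 0).toNat ^ d) : ℕ)
      : ℤ) ≤ ((2 * vol d s K : ℕ) : ℤ) := by
    rw [Nat.cast_mul, Nat.cast_mul, Nat.cast_mul, Nat.cast_pow, Nat.cast_pow]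
    rw [vol_cast]
    rw [sub_zero, sub_zero, Int.toNat_of_nonneg (show 0 ≤ tau s K + A by linarith),
      Int.toNat_of_nonneg (show 0 ≤ XX s K + W - -W by linarith),
      Int.toNat_of_nonneg h3.le]
    push_cast
    have hn := Cnt.num d (tau s K : ℝ) (XX s K : ℝ) (rho K : ℝ) (A : ℝ) (W : ℝ)
      (by exact_mod_cast h1) (by exact_mod_cast h2) (by exact_mod_cast h3)
      (by exact_mod_cast hA) (by exact_mod_cast hW) (by exact_mod_cast hA1)
      (by exact_mod_cast hW1)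
    have e : XX s K + W - -W = XX s K + 2 * W := by ring
    rw [e]
    exact_mod_cast hn
  exact_mod_cast h

end KD.III
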